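import Pool.Agent.Helper45.PT.Seg
import Pool.Agent.Helper97.RQ.IntPt

/-!
# Neighbouring integer matrices which locally constant functions do not distinguish (MP_381749_lc)
-/

set_option autoImplicit false

namespace Pool.PT

open MvPolynomial Pool.Agent.Helper24.SQ Pool.RQ Filter Topology

/-- In each cube with side `1` the permanent does not vanish at some vertex. -/
theorem grid {n : ℕ} (hn : 1 ≤ n) (x : Fin n × Fin n → ℂ) :
    ∃ z : Fin n × Fin n → ℤ, (∀ q, z q = 0 ∨ z q = 1) ∧
      eval (fun q => x q + (z q : ℂ)) (permPoly n) ≠ 0 := by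
  classical
  by_contra hcon
  push Not at hcon
  have key : ∀ (S : Finset (Fin n × Fin n)) (y : Fin n × Fin n → ℂ),
      (∀ q ∉ S, y q = x q ∨ y q = x q + 1) → eval y (permPoly n) = 0 := by
    intro S
    induction S using Finset.induction_on with
    | empty =>
      intro y hy
      have h1 : ∀ q, ∃ c : ℤ, (c = 0 ∨ c = 1) ∧ y q = x q + (c : ℂ) := by
        intro q
        rcases hy q (by simp) with h | h
        · exact ⟨0, Or.inl rfl, by simpa using h⟩
        · exact ⟨1, Or.inr rfl, by simpa using h⟩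
      choose z hz hyz using h1
      rw [funext hyz]
      exact hcon z hz
    | insert q S hq ih =>
      intro y hy
      have h0 : eval (Function.update y q (x q)) (permPoly n) = 0 := by
        refine ih _ fun p hp => ?_
        by_cases hpq : p = q
        · subst hpq
          left
          rw [Function.update_self]
        · rw [Function.update_of_ne hpq]
          exact hy p (by simp [hpq, hp])
      have h1 : eval (Function.update y q (x q + 1)) (permPoly n) = 0 := by
        refine ih _ fun p hp => ?_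
        by_cases hpq : p = q
        · subst hpq
          right
          rw [Function.update_self]
        · rw [Function.update_of_ne hpq]
          exact hy p (by simp [hpq, hp])
      have e0 := permanent_update y q (x q)
      have e1 := permanent_update y q (x q + 1)
      have ey := permanent_update y q (y q)
      rw [Function.update_eq_self] at ey
      rw [h0] at e0
      rw [h1] at e1
      linear_combination ey - e0 - (y q - x q) * (e1 - e0)
  apply (perm_prime hn).ne_zero
  apply MvPolynomial.funext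
  intro y
  rw [key Finset.univ y (fun q hq => absurd (Finset.mem_univ q) hq), map_zero]

/-- A function of real matrices which is locally constant at each point of a segment takes the same
value at the ends. -/
theorem seg_const {n : ℕ} {α : Type} (q : Matrix (Fin n) (Fin n) ℝ → α)
    (X Z : Matrix (Fin n) (Fin n) ℝ) (hZ : ∀ a b, |Z a b| ≤ 1)
    (h : ∀ s ∈ Set.Icc (0 : ℝ) 1, ∃ ε : ℝ, 0 < ε ∧ ∀ Y : Matrix (Fin n) (Fin n) ℝ,
      (∀ a b, |Y a b - (X + s • Z) a b| < ε) → q Y = q (X + s • Z)) :
    q (X + Z) = q X := by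
  let _ : TopologicalSpace α := ⊥
  have _ : DiscreteTopology α := ⟨rfl⟩
  have h1 : ContinuousOn (fun s : ℝ => q (X + s • Z)) (Set.Icc (0 : ℝ) 1) := by
    intro s hs
    obtain ⟨ε, hε, hq⟩ := h s hs
    apply ContinuousAt.continuousWithinAt
    have h2 : (fun s' : ℝ => q (X + s' • Z)) =ᶠ[𝓝 s] fun _ => q (X + s • Z) := by
      have h3 : ∀ᶠ s' in 𝓝 s, |s' - s| < ε := by
        have := Metric.ball_mem_nhds s hε
        filter_upwards [this] with s' hs'
        rwa [Metric.mem_ball, Real.dist_eq] at hs'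
      filter_upwards [h3] with s' hs'
      apply hq
      intro a b
      have h4 : (X + s' • Z) a b - (X + s • Z) a b = (s' - s) * Z a b := by
        simp only [Matrix.add_apply, Matrix.smul_apply, smul_eq_mul]
        ring
      rw [h4, abs_mul]
      calc |s' - s| * |Z a b| ≤ |s' - s| * 1 := by
            gcongr
            exact hZ a b
        _ < ε := by rwa [mul_one]
    exact (continuousAt_const).congr h2.symm
  have h5 := isPreconnected_Icc.constant h1 (Set.left_mem_Icc.2 zero_le_one)
    (Set.right_mem_Icc.2 zero_le_one)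
  simp only [zero_smul, add_zero, one_smul] at h5
  exact h5.symm

/-- Let the permanent divide no leading form of `G 0, ..., G (k - 1)`, and let `q` be a function of
real matrices which is constant near each one at which no `G i` vanishes. Then there are integer
matrices `X`, `Y` with `|Y a b - X a b| ≤ 1`, `perm X = 0`, `perm Y ≠ 0` and `q Y = q X`. -/
theorem seg_int (n k : ℕ) (hn : 1 ≤ n) (G : Fin k → MvPolynomial (Fin n × Fin n) ℂ)
    (hG : ∀ i, ¬ permPoly n ∣ homogeneousComponent (G i).totalDegree (G i))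
    (α : Type) (q : Matrix (Fin n) (Fin n) ℝ → α)
    (hq : ∀ X : Matrix (Fin n) (Fin n) ℝ, (∀ i, eval (fun p => (X p.1 p.2 : ℂ)) (G i) ≠ 0) →
      ∃ ε : ℝ, 0 < ε ∧
        ∀ Y : Matrix (Fin n) (Fin n) ℝ, (∀ a b, |Y a b - X a b| < ε) → q Y = q X) :
    ∃ X Y : Matrix (Fin n) (Fin n) ℤ, (∀ a b, |Y a b - X a b| ≤ 1) ∧ X.permanent = 0 ∧
      (∀ i, eval (fun p => (X p.1 p.2 : ℂ)) (G i) ≠ 0) ∧
      (∀ i, eval (fun p => (Y p.1 p.2 : ℂ)) (G i) ≠ 0) ∧ Y.permanent ≠ 0 ∧
      q (Y.map (Int.cast : ℤ → ℝ)) = q (X.map (Int.cast : ℤ → ℝ)) := by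
  classical
  have hprod : ¬ permPoly n ∣ ∏ i, homogeneousComponent (G i).totalDegree (G i) := by
    intro h
    obtain ⟨i, -, hi⟩ := (Prime.dvd_finsetProd_iff (perm_prime hn) _).1 h
    exact hG i hi
  obtain ⟨X0, hX0, hGX⟩ := int_pt n hn _ hprod
  rw [map_prod, Finset.prod_ne_zero_iff] at hGX
  have hK : IsCompact (Set.pi Set.univ fun _ : Fin n × Fin n => Metric.closedBall (0 : ℂ) 1) :=
    isCompact_univ_pi fun _ => isCompact_closedBall _ _
  have hfar : ∀ᶠ t : ℕ in atTop, ∀ i, ∀ z ∈ Set.pi Set.univ fun _ : Fin n × Fin n =>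
      Metric.closedBall (0 : ℂ) 1,
      eval (fun p => (t : ℂ) * (X0 p.1 p.2 : ℂ) + z p) (G i) ≠ 0 := by
    rw [eventually_all]
    intro i
    exact far (G i) (fun p => (X0 p.1 p.2 : ℂ)) (hGX i (Finset.mem_univ i)) hK
  obtain ⟨t, ht⟩ := hfar.exists
  obtain ⟨z, hz01, hz⟩ := grid hn fun p => (t : ℂ) * (X0 p.1 p.2 : ℂ)
  have hzr : ∀ p, |((z p : ℤ) : ℝ)| ≤ 1 := by
    intro p
    rcases hz01 p with h | h <;> rw [h] <;> simp
  -- the values along the segment
  have hseg : ∀ s ∈ Set.Icc (0 : ℝ) 1, ∀ i,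
      eval (fun p => (t : ℂ) * (X0 p.1 p.2 : ℂ) + (s : ℂ) * (z p : ℂ)) (G i) ≠ 0 := by
    intro s hs i
    refine ht i (fun p => (s : ℂ) * (z p : ℂ)) fun p _ => ?_
    rw [mem_closedBall_zero_iff, norm_mul, Complex.norm_real, Real.norm_of_nonneg hs.1]
    have h1 : ‖((z p : ℤ) : ℂ)‖ ≤ 1 := by
      rcases hz01 p with h | h <;> rw [h] <;> simp
    calc s * ‖((z p : ℤ) : ℂ)‖ ≤ 1 * 1 := by
          gcongr
          exact hs.2
      _ = 1 := one_mul 1
  refine ⟨Matrix.of fun a b => (t : ℤ) * X0 a b, Matrix.of fun a b => (t : ℤ) * X0 a b + z (a, b),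
    fun a b => ?_, ?_, fun i => ?_, fun i => ?_, ?_, ?_⟩
  · rw [Matrix.of_apply, Matrix.of_apply, add_sub_cancel_left]
    rcases hz01 (a, b) with h | h <;> rw [h] <;> simp
  · have h1 : (Matrix.of fun a b => (t : ℤ) * X0 a b) = (t : ℤ) • X0 := rfl
    rw [h1, Matrix.permanent_smul, hX0, mul_zero]
  · have h1 := hseg 0 (Set.left_mem_Icc.2 zero_le_one) i
    simp only [Complex.ofReal_zero, zero_mul, add_zero] at h1
    simpa using h1
  · have h1 := hseg 1 (Set.right_mem_Icc.2 zero_le_one) i
    simp only [Complex.ofReal_one, one_mul] at h1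
    simpa using h1
  · intro h1
    apply hz
    have h2 := eval_perm_int (n := n) fun p => (t : ℤ) * X0 p.1 p.2 + z p
    have h3 : (fun p : Fin n × Fin n => (((t : ℤ) * X0 p.1 p.2 + z p : ℤ) : ℂ)) =
        fun p => (t : ℂ) * (X0 p.1 p.2 : ℂ) + (z p : ℂ) := by
      funext p
      push_cast
      rfl
    rw [h3] at h2
    rw [h2]
    exact_mod_cast h1
  · have h1 := seg_const q ((Matrix.of fun a b => (t : ℤ) * X0 a b).map (Int.cast : ℤ → ℝ))
      (Matrix.of fun a b => ((z (a, b) : ℤ) : ℝ)) (fun a b => hzr (a, b)) fun s hs => by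
        apply hq
        intro i
        have h2 := hseg s hs i
        have h3 : (fun p : Fin n × Fin n => (((((Matrix.of fun a b => (t : ℤ) * X0 a b).map
            (Int.cast : ℤ → ℝ)) + s • (Matrix.of fun a b => ((z (a, b) : ℤ) : ℝ))) p.1 p.2 : ℝ) : ℂ))
            = fun p => (t : ℂ) * (X0 p.1 p.2 : ℂ) + (s : ℂ) * (z p : ℂ) := by
          funext p
          rw [Matrix.add_apply, Matrix.smul_apply, Matrix.map_apply, Matrix.of_apply,
            Matrix.of_apply, smul_eq_mul]
          push_cast
          rfl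
        rw [h3]
        exact h2
    rw [← h1]
    congr 1
    ext a b
    rw [Matrix.add_apply, Matrix.map_apply, Matrix.map_apply, Matrix.of_apply, Matrix.of_apply,
      Matrix.of_apply]
    push_cast
    rfl

end Pool.PT
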