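import Pool.Agent.Helper45.PT.Top
import Pool.Agent.Helper45.PT.Fin
import Pool.Agent.Helper97.RQ.Core

/-!
# Deciding the vanishing of the permanent of integer matrices by queries to Pfaffians (MP_381749_lc)
-/

set_option autoImplicit false

namespace Pool.PT

open MvPolynomial Pool.Agent.Helper24.SQ Pool.CD Pool.RQ

/-- Neighbouring integer matrices which queries to Pfaffians do not distinguish. -/
theorem final_int : ∃ c : ℝ, 0 < c ∧ ∀ n m δ k : ℕ, 1 ≤ δ → (δ : ℝ) ≤ max 1 (c * n) →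
    (m : ℝ) * δ < c * (n : ℝ) ^ 3 → ∀ G : Fin k → MvPolynomial (Fin n × Fin n) ℂ,
    (∀ i, G i ≠ 0 ∧ Near (PfCls m δ) (G i)) →
    ∀ (α : Type) (q : Matrix (Fin n) (Fin n) ℝ → α),
    (∀ X : Matrix (Fin n) (Fin n) ℝ, (∀ i, eval (fun p => (X p.1 p.2 : ℂ)) (G i) ≠ 0) →
      ∃ ε : ℝ, 0 < ε ∧
        ∀ Y : Matrix (Fin n) (Fin n) ℝ, (∀ a b, |Y a b - X a b| < ε) → q Y = q X) →
    ∃ X Y : Matrix (Fin n) (Fin n) ℤ, (∀ a b, |Y a b - X a b| ≤ 1) ∧ X.permanent = 0 ∧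
      (∀ i, eval (fun p => (X p.1 p.2 : ℂ)) (G i) ≠ 0) ∧
      (∀ i, eval (fun p => (Y p.1 p.2 : ℂ)) (G i) ≠ 0) ∧ Y.permanent ≠ 0 ∧
      q (Y.map (Int.cast : ℤ → ℝ)) = q (X.map (Int.cast : ℤ → ℝ)) := by
  obtain ⟨c, hc, H⟩ := multiples
  refine ⟨c, hc, fun n m δ k hδ hδn hlt G hG α q hq => ?_⟩
  rcases Nat.eq_zero_or_pos n with h0 | hn
  · exfalso
    subst h0
    have : (0 : ℝ) ≤ (m : ℝ) * (δ : ℝ) := by positivity
    have h1 : c * ((0 : ℕ) : ℝ) ^ 3 = 0 := by simp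
    rw [h1] at hlt
    linarith
  refine seg_int n k hn G (fun i hi => ?_) α q hq
  have h1 := lim_top (PfRep m δ) (fun P t hP => (PfCls m δ).subst P _ hP fun x => by
    refine (totalDegree_mul _ _).trans ?_
    rw [totalDegree_C, zero_add, totalDegree_X]) (m * δ) (fun P hP => (PfCls m δ).le P hP) (G i)
    (hG i).1 fun ε hε => by
      obtain ⟨P, hP, hc⟩ := (hG i).2 ε hε
      exact ⟨P, 1, hP, by simpa using hc⟩
  exact absurd (H n m δ hδ hδn _ h1.1 hi h1.2) (not_le.2 hlt)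

end Pool.PT
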