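import Mathlib

/-!
# Values of a polynomial far away in a direction where its leading form does not vanish
-/

set_option autoImplicit false

namespace Pool.PT

open MvPolynomial Filter Topology

variable {σ : Type} [Fintype σ]

/-- `t ^ (- deg G) G (t x + z)` with `r = 1 / t` -/
noncomputable def dilF (G : MvPolynomial σ ℂ) (x : σ → ℂ) (r : ℂ) (z : σ → ℂ) : ℂ :=
  ∑ s ∈ G.support, coeff s G * (r ^ (G.totalDegree - s.degree) * ∏ i, (x i + r * z i) ^ s i)

omit [Fintype σ] in
theorem degree_le {G : MvPolynomial σ ℂ} {s : σ →₀ ℕ} (hs : s ∈ G.support) :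
    s.degree ≤ G.totalDegree := le_totalDegree hs

theorem dilF_zero (G : MvPolynomial σ ℂ) (x z : σ → ℂ) :
    dilF G x 0 z = eval x (homogeneousComponent G.totalDegree G) := by
  classical
  rw [homogeneousComponent_apply, map_sum, dilF, ← Finset.sum_subset (Finset.filter_subset
    (fun s : σ →₀ ℕ => s.degree = G.totalDegree) G.support)]
  · refine Finset.sum_congr rfl fun s hs => ?_
    rw [Finset.mem_filter] at hs
    rw [eval_monomial, hs.2, Nat.sub_self, pow_zero, one_mul, Finsupp.prod_fintype _ _ (by simp)]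
    simp
  · intro s hs hns
    rw [Finset.mem_filter] at hns
    have h1 := degree_le hs
    have h2 : G.totalDegree - s.degree ≠ 0 := by
      have : s.degree ≠ G.totalDegree := fun h => hns ⟨hs, h⟩
      omega
    rw [zero_pow h2, zero_mul, mul_zero]

theorem eval_dil (G : MvPolynomial σ ℂ) (x z : σ → ℂ) {t : ℂ} (ht : t ≠ 0) :
    eval (fun i => t * x i + z i) G = t ^ G.totalDegree * dilF G x t⁻¹ z := by
  classical
  rw [eval_eq', dilF, Finset.mul_sum]
  refine Finset.sum_congr rfl fun s hs => ?_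
  have h1 := degree_le hs
  obtain ⟨j, hj⟩ : ∃ j, G.totalDegree = s.degree + j := ⟨G.totalDegree - s.degree, by omega⟩
  have h2 : ∏ i, (t * x i + z i) ^ s i = t ^ s.degree * ∏ i, (x i + t⁻¹ * z i) ^ s i := by
    rw [Finsupp.degree_eq_sum, ← Finset.prod_pow_eq_pow_sum, ← Finset.prod_mul_distrib]
    refine Finset.prod_congr rfl fun i _ => ?_
    rw [← mul_pow, mul_add, mul_inv_cancel_left₀ ht]
  rw [h2, hj, Nat.add_sub_cancel_left, pow_add]
  have h3 : t ^ j * t⁻¹ ^ j = 1 := by rw [← mul_pow, mul_inv_cancel₀ ht, one_pow]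
  calc coeff s G * (t ^ s.degree * ∏ i, (x i + t⁻¹ * z i) ^ s i)
      = (t ^ j * t⁻¹ ^ j) * (coeff s G * (t ^ s.degree * ∏ i, (x i + t⁻¹ * z i) ^ s i)) := by
        rw [h3, one_mul]
    _ = _ := by ring

theorem continuous_dilF (G : MvPolynomial σ ℂ) (x : σ → ℂ) :
    Continuous fun p : ℂ × (σ → ℂ) => dilF G x p.1 p.2 := by
  unfold dilF
  fun_prop

/-- Far away in a direction in which the leading form does not vanish there are no zeros. -/
theorem far (G : MvPolynomial σ ℂ) (x : σ → ℂ)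
    (hx : eval x (homogeneousComponent G.totalDegree G) ≠ 0) {K : Set (σ → ℂ)}
    (hK : IsCompact K) :
    ∀ᶠ t : ℕ in atTop, ∀ z ∈ K, eval (fun i => (t : ℂ) * x i + z i) G ≠ 0 := by
  have h1 : ∀ᶠ r : ℂ in 𝓝 0, ∀ z ∈ K, dilF G x r z ≠ 0 := by
    refine hK.eventually_forall_of_forall_eventually fun z _ => ?_
    have h2 : dilF G x (0, z).1 (0, z).2 ≠ 0 := by
      rw [dilF_zero]
      exact hx
    exact (continuous_dilF G x).continuousAt.eventually_ne h2
  have h3 : Tendsto (fun t : ℕ => ((t : ℂ))⁻¹) atTop (𝓝 0) := by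
    have h4 : Tendsto (fun t : ℕ => ((t : ℝ))⁻¹) atTop (𝓝 0) := tendsto_inv_atTop_nhds_zero_nat
    have h5 := (Complex.continuous_ofReal.tendsto 0).comp h4
    simpa [Function.comp_def] using h5
  filter_upwards [h3.eventually h1, eventually_gt_atTop 0] with t ht ht0 z hz
  have ht' : (t : ℂ) ≠ 0 := by exact_mod_cast ht0.ne'
  rw [eval_dil G x z ht']
  exact mul_ne_zero (pow_ne_zero _ ht') (ht z hz)

end Pool.PT
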