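import Mathlib

/-!
# Leading forms of limits (MP_381749_lc)

Let `R` be a class of polynomials of degree at most `D` which is closed under dilations of the
variables. The leading form of a nonzero limit of multiples of elements of `R` is again one.
-/

set_option autoImplicit false

namespace Pool.PT

open MvPolynomial

variable {σ : Type}

theorem lead_ne_zero {G : MvPolynomial σ ℂ} (hG : G ≠ 0) :
    homogeneousComponent G.totalDegree G ≠ 0 := by
  intro h
  obtain ⟨s, hs, hd⟩ := Finset.exists_mem_eq_sup G.support (support_nonempty.2 hG)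
    (fun s : σ →₀ ℕ => s.sum fun _ e => e)
  have h1 : s.degree = G.totalDegree := by
    rw [totalDegree, hd]
    rfl
  have h2 : coeff s (homogeneousComponent G.totalDegree G) = coeff s G := by
    rw [coeff_homogeneousComponent, if_pos h1]
  rw [h, coeff_zero] at h2
  exact (mem_support_iff.1 hs) h2.symm

theorem coeff_dil (t : ℂ) (P : MvPolynomial σ ℂ) (s : σ →₀ ℕ) :
    coeff s (aeval (fun q => C t * X q) P) = t ^ s.degree * coeff s P := by
  classical
  induction P using MvPolynomial.induction_on' with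
  | monomial u a =>
    have h1 : (u.prod fun i k => (C t * X i : MvPolynomial σ ℂ) ^ k) =
        C (t ^ u.degree) * monomial u 1 := by
      rw [monomial_eq, C_1, one_mul, Finsupp.degree_apply, ← Finset.prod_pow_eq_pow_sum, map_prod]
      simp only [Finsupp.prod, mul_pow, Finset.prod_mul_distrib, map_pow]
    rw [aeval_monomial, h1, algebraMap_eq, ← mul_assoc, ← C_mul, C_mul_monomial, coeff_monomial,
      coeff_monomial]
    split_ifs with h
    · subst h
      ring
    · ring
  | add p q hp hq => rw [map_add, coeff_add, coeff_add, hp, hq, mul_add]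

theorem lim_lead (R : MvPolynomial σ ℂ → Prop)
    (hR : ∀ (P : MvPolynomial σ ℂ) (t : ℂ), R P → R (aeval (fun q => C t * X q) P)) (D : ℕ)
    (hDR : ∀ P, R P → P.totalDegree ≤ D) (G : MvPolynomial σ ℂ)
    (hL : ∀ ε : ℝ, 0 < ε → ∃ (P : MvPolynomial σ ℂ) (c : ℂ), R P ∧
      ∀ s, ‖coeff s (c • P) - coeff s G‖ < ε) :
    ∀ ε : ℝ, 0 < ε → ∃ (P : MvPolynomial σ ℂ) (c : ℂ), R P ∧
      ∀ s, ‖coeff s (c • P) - coeff s (homogeneousComponent G.totalDegree G)‖ < ε := by
  intro ε hε
  set e := G.totalDegree with he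
  set M : ℝ := ∑ s ∈ G.support, ‖coeff s G‖ with hM
  have hM0 : 0 ≤ M := Finset.sum_nonneg fun _ _ => norm_nonneg _
  set t : ℝ := 1 + 2 * M / ε with ht
  have ht1 : 1 ≤ t := by
    have : 0 ≤ 2 * M / ε := by positivity
    linarith
  have ht0 : 0 < t := by linarith
  have hMt : M / t < ε / 2 := by
    rw [div_lt_iff₀ ht0, ht]
    have : ε / 2 * (1 + 2 * M / ε) = ε / 2 + M := by
      field_simp
    rw [this]
    linarith
  have hGs : ∀ s, ‖coeff s G‖ ≤ M := by
    intro s
    by_cases hs : s ∈ G.support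
    · exact Finset.single_le_sum (f := fun s => ‖coeff s G‖) (fun _ _ => norm_nonneg _) hs
    · rw [notMem_support_iff.1 hs, norm_zero]
      exact hM0
  obtain ⟨P, c, hP, hc⟩ := hL (ε / (2 * t ^ (D))) (by positivity)
  have hD : ∀ s : σ →₀ ℕ, D < s.degree → coeff s P = 0 := by
    intro s hs
    have h1 : P.totalDegree ≤ D := hDR P hP
    by_contra hne
    have h2 := le_totalDegree (mem_support_iff.2 hne)
    have h3 : (s.sum fun _ e => e) = s.degree := rfl
    rw [h3] at h2
    omega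
  have hlt : ε / (2 * t ^ (D)) ≤ ε / 2 := by
    apply div_le_div_of_nonneg_left hε.le (by norm_num)
    have : 1 ≤ t ^ (D) := one_le_pow₀ ht1
    linarith
  refine ⟨aeval (fun q => C (t : ℂ) * X q) P, ((t : ℂ) ^ e)⁻¹ * c, hR P t hP, fun s => ?_⟩
  rw [coeff_smul, smul_eq_mul, coeff_dil, coeff_homogeneousComponent]
  have hcs := hc s
  rw [coeff_smul, smul_eq_mul] at hcs
  by_cases hs : D < s.degree
  · rw [hD s hs, mul_zero, mul_zero, zero_sub, norm_neg]
    rw [hD s hs, mul_zero, zero_sub, norm_neg] at hcs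
    split_ifs
    · linarith
    · rw [norm_zero]
      exact hε
  · rw [not_lt] at hs
    have e1 : ((t : ℂ) ^ e)⁻¹ * c * ((t : ℂ) ^ s.degree * coeff s P) -
        (if s.degree = e then coeff s G else 0) =
        ((t : ℂ) ^ e)⁻¹ * (t : ℂ) ^ s.degree * (c * coeff s P - coeff s G) +
          (((t : ℂ) ^ e)⁻¹ * (t : ℂ) ^ s.degree * coeff s G -
            (if s.degree = e then coeff s G else 0)) := by
      ring
    rw [e1]
    have hn : ‖((t : ℂ) ^ e)⁻¹ * (t : ℂ) ^ s.degree‖ = (t ^ e)⁻¹ * t ^ s.degree := by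
      rw [norm_mul, norm_inv, norm_pow, norm_pow, Complex.norm_real, Real.norm_of_nonneg ht0.le]
    have b1 : ‖((t : ℂ) ^ e)⁻¹ * (t : ℂ) ^ s.degree * (c * coeff s P - coeff s G)‖ < ε / 2 := by
      rw [norm_mul, hn]
      have h2 : (t ^ e)⁻¹ * t ^ s.degree ≤ t ^ (D) := by
        have h3 : (t ^ e)⁻¹ ≤ 1 := inv_le_one_of_one_le₀ (one_le_pow₀ ht1)
        have h4 : t ^ s.degree ≤ t ^ (D) := pow_le_pow_right₀ ht1 hs
        calc (t ^ e)⁻¹ * t ^ s.degree ≤ 1 * t ^ (D) := by gcongr
          _ = _ := one_mul _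
      have h5 : t ^ (D) * (ε / (2 * t ^ (D))) = ε / 2 := by
        have : t ^ (D) ≠ 0 := by positivity
        field_simp
      calc (t ^ e)⁻¹ * t ^ s.degree * ‖c * coeff s P - coeff s G‖
          ≤ t ^ (D) * ‖c * coeff s P - coeff s G‖ := by gcongr
        _ < t ^ (D) * (ε / (2 * t ^ (D))) := by gcongr
        _ = ε / 2 := h5
    have b2 : ‖((t : ℂ) ^ e)⁻¹ * (t : ℂ) ^ s.degree * coeff s G -
        (if s.degree = e then coeff s G else 0)‖ < ε / 2 := by
      have htc : ((t : ℂ) ^ e) ≠ 0 := by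
        apply pow_ne_zero
        exact_mod_cast ht0.ne'
      rcases lt_trichotomy s.degree e with h | h | h
      · rw [if_neg h.ne, sub_zero, norm_mul, hn]
        have h2 : (t ^ e)⁻¹ * t ^ s.degree ≤ t⁻¹ := by
          obtain ⟨j, hj⟩ : ∃ j, e = s.degree + 1 + j := ⟨e - s.degree - 1, by omega⟩
          rw [hj, pow_add, pow_succ, mul_inv, mul_inv]
          have h3 : (t ^ j)⁻¹ ≤ 1 := inv_le_one_of_one_le₀ (one_le_pow₀ ht1)
          have h4 : (t ^ s.degree)⁻¹ * t⁻¹ * (t ^ j)⁻¹ * t ^ s.degree = t⁻¹ * (t ^ j)⁻¹ := by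
            have : t ^ s.degree ≠ 0 := by positivity
            field_simp
          rw [h4]
          calc t⁻¹ * (t ^ j)⁻¹ ≤ t⁻¹ * 1 := by gcongr
            _ = t⁻¹ := mul_one _
        calc (t ^ e)⁻¹ * t ^ s.degree * ‖coeff s G‖ ≤ t⁻¹ * M := by
              gcongr
              exact hGs s
          _ = M / t := by rw [mul_comm, div_eq_mul_inv]
          _ < ε / 2 := hMt
      · rw [if_pos h, h, inv_mul_cancel₀ htc, one_mul, sub_self, norm_zero]
        linarith
      · have h2 : coeff s G = 0 := by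
          by_contra hne
          have h3 := le_totalDegree (mem_support_iff.2 hne)
          have h4 : (s.sum fun _ e => e) = s.degree := rfl
          rw [h4] at h3
          omega
        rw [h2, mul_zero, if_neg h.ne', sub_zero, norm_zero]
        linarith
    calc ‖_‖ ≤ _ := norm_add_le _ _
      _ < ε / 2 + ε / 2 := add_lt_add b1 b2
      _ = ε := by ring

/-- The leading form of a nonzero limit is a nonzero limit. -/
theorem lim_top {σ : Type} (R : MvPolynomial σ ℂ → Prop)
    (hR : ∀ (P : MvPolynomial σ ℂ) (t : ℂ), R P → R (aeval (fun x => C t * X x) P)) (D : ℕ)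
    (hD : ∀ P, R P → P.totalDegree ≤ D) (G : MvPolynomial σ ℂ) (hG : G ≠ 0)
    (h : ∀ ε : ℝ, 0 < ε → ∃ (P : MvPolynomial σ ℂ) (c : ℂ), R P ∧
      ∀ s, ‖coeff s (c • P) - coeff s G‖ < ε) :
    homogeneousComponent G.totalDegree G ≠ 0 ∧
    ∀ ε : ℝ, 0 < ε → ∃ (P : MvPolynomial σ ℂ) (c : ℂ), R P ∧
      ∀ s, ‖coeff s (c • P) - coeff s (homogeneousComponent G.totalDegree G)‖ < ε :=
  ⟨lead_ne_zero hG, lim_lead R hR D hD G h⟩

end Pool.PT
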